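import Pool.Agent.K6.helper20.HD.Shadow

/-!
# Largest minimal percolating sets of `[3]^d`

MP_58c4c2_co, the case `n = 3` (all dimensions).  `IsM n d m` means `M(n, d) = m`: `m` is the largest
number of vertices of a minimal position which is reachable from `[n]^d` by moves
(`Pool.Agent.K6.helper20.HD.Defs`).

`M(n, d) ≤ n ^ d - 2 ^ d` for all `n ≥ 3` and all `d`, and `M(3, d) = 3 ^ d - 2 ^ d` for all `d`.

Upper bound: a corner is in the shadow of a vertex when both agree in the extreme coordinates of the
vertex.  If two corners of the shadow of a vertex `v` are in no shadow of a removed vertex, then `v` has a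
remaining neighbour in each direction and two of them in a direction where the two corners
differ, so its degree is at least `d + 1`.  Hence each move brings at most one new corner into the
shadows of the removed vertices; when no vertex of degree `d` is left, all `2 ^ d` corners are there.
-/

set_option autoImplicit false

open Finset

namespace Pool.Agent.Results.MP_58c4c2_co.SideThree

open Pool.Agent.K6.helper20.HD

/-- **The largest minimal percolating sets of `[3]^d`.**
`M(3, d) = 3 ^ d - 2 ^ d` for every `d`, and `M(n, d) ≤ n ^ d - 2 ^ d` for every `n ≥ 3` and every `d`. -/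
theorem result :
    (∀ d : ℕ, IsM 3 d (3 ^ d - 2 ^ d)) ∧
    ∀ n : ℕ, 3 ≤ n → ∀ d m : ℕ, IsM n d m → m + 2 ^ d ≤ n ^ d :=
  ⟨isM_three, fun _ hn d m h => upper_all hn d m h⟩

end Pool.Agent.Results.MP_58c4c2_co.SideThree
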