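import Pool.Agent.K6.helper20.HD.Cube

/-!
# Largest minimal percolating sets of `[2]^d`

MP_58c4c2_co, the case `n = 2`.  `IsM n d m` means `M(n, d) = m`: `m` is the largest number of vertices
of a minimal position which is reachable from `[n]^d` by moves (`Pool.Agent.K6.helper20.HD.Defs`).

`M(2, d) = 2 ^ d - i(Q_d)`, where `i(Q_d)` is the least size of an independent dominating set
of the hypercube graph; hence `M(2, d) ≤ d 2 ^ d / (d + 1)`, with equality for `d = 2 ^ k - 1` (Hamming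
codes).
-/

set_option autoImplicit false

open Finset

namespace Pool.Agent.Results.MP_58c4c2_co.SideTwo

open Pool.Agent.K6.helper20.HD

theorem hamming_case (k : ℕ) (hk : 1 ≤ k) :
    IsM 2 (2 ^ k - 1) ((2 ^ k - 1) * 2 ^ (2 ^ k - 1 - k)) := by
  rw [isM_cube]
  obtain ⟨R, h1, h2, h3⟩ := hamming k
  have hle : k ≤ 2 ^ k - 1 := by
    have := Nat.lt_two_pow_self (n := k)
    omega
  have hpos : 0 < 2 ^ k := Nat.pow_pos (by omega)
  have h4 : 2 ^ (2 ^ k - 1) = 2 ^ k * 2 ^ (2 ^ k - 1 - k) := by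
    rw [← pow_add]
    congr 1
    omega
  have h5 : R.card = 2 ^ (2 ^ k - 1 - k) :=
    Nat.eq_of_mul_eq_mul_left hpos (h3.trans h4)
  refine ⟨R.card, ⟨⟨R, h1, h2, rfl⟩, ?_⟩, ?_⟩
  · rintro m ⟨R', -, hR', rfl⟩
    have h6 := dominating_card R' hR'
    have h7 : 2 ^ k - 1 + 1 = 2 ^ k := by omega
    rw [h7, ← h3] at h6
    exact Nat.le_of_mul_le_mul_left h6 hpos
  · rw [h5, h4]
    obtain ⟨q, hq⟩ : ∃ q, 2 ^ k = q + 1 := ⟨2 ^ k - 1, by omega⟩
    rw [hq]
    simp only [Nat.add_sub_cancel]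
    ring

/-- **The largest minimal percolating sets of `[2]^d`.**
`M(2, d) = 2 ^ d - i` where `i` is the least number of elements of an independent dominating set of the
graph `[2]^d`; hence `(d + 1) M(2, d) ≤ d 2 ^ d`, and `M(2, 2 ^ k - 1) = (2 ^ k - 1) 2 ^ (2 ^ k - 1 - k)`,
which is equality, for `k ≥ 1`. -/
theorem result :
    (∀ d m : ℕ, IsM 2 d m ↔
      ∃ i, IsLeast {k | ∃ R : Finset (Fin d → Fin 2), Indep R ∧ Dominating R ∧ R.card = k} i ∧
        m + i = 2 ^ d) ∧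
    (∀ d m : ℕ, IsM 2 d m → (d + 1) * m ≤ d * 2 ^ d) ∧
    ∀ k : ℕ, 1 ≤ k → IsM 2 (2 ^ k - 1) ((2 ^ k - 1) * 2 ^ (2 ^ k - 1 - k)) := by
  refine ⟨isM_cube, ?_, hamming_case⟩
  intro d m h
  obtain ⟨i, ⟨⟨R, -, hR, hRi⟩, -⟩, hmi⟩ := (isM_cube d m).1 h
  have h1 := dominating_card R hR
  rw [hRi] at h1
  have h2 : (d + 1) * (m + i) = (d + 1) * 2 ^ d := by rw [hmi]
  nlinarith

end Pool.Agent.Results.MP_58c4c2_co.SideTwo
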