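import Pool.Agent.K6.helper20.HD.Lower
import Pool.Agent.K6.helper20.HD.Cube

/-!
# Largest minimal percolating sets of the square boards

MP_58c4c2_co, the case `d = 2`.  `IsM n d m` means `M(n, d) = m`: `m` is the largest number of vertices
of a minimal position which is reachable from `[n]^d` by moves (`Pool.Agent.K6.helper20.HD.Defs`).

`M(1, 2) = 1`, `M(2, 2) = 2` and `M(n, 2) = (n - 2)² + 4` for all `n ≥ 3`.  Lower bound: the
boundary of the square is removed in cyclic order up to four pendant vertices (a pinwheel).  Upper
bound, for every set `P` of cells with `4 n` exposed sides and no cell of degree `2`: let `L` be the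
set of the cells of degree `≥ 3`.  The four extreme corners of `L` force four pendant vertices, and
`|L| ≤ a b` where `a`, `b` are the numbers of the rows and columns of `L`, with
`2 a + 2 b ≤ ` (exposed sides of `L`).
-/

set_option autoImplicit false

open Finset

namespace Pool.Agent.Results.MP_58c4c2_co.SquareBoards

open Pool.Agent.K6.helper20.HD

theorem one_two : IsM 1 2 1 := by
  classical
  constructor
  · refine ⟨univ, Relation.ReflTransGen.refl, ?_, by simp⟩
    intro v _ h
    have h1 : deg (univ : Finset (Fin 2 → Fin 1)) v ≤ 1 := by
      unfold deg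
      exact (card_filter_le _ _).trans (by simp)
    omega
  · rintro k ⟨P, -, -, rfl⟩
    exact (card_le_univ P).trans (by simp)

theorem two_two : IsM 2 2 2 := by
  classical
  rw [isM_cube]
  refine ⟨2, ⟨⟨{![0, 0], ![1, 1]}, ?_, ?_, ?_⟩, ?_⟩, by norm_num⟩
  · have key : ∀ (a b : Fin 2), ¬ Adj (![a, a] : Fin 2 → Fin 2) ![b, b] := by
      rintro a b ⟨i, h1, h2⟩
      fin_cases i
      · have := h2 1 (by decide)
        simp only [Matrix.cons_val_one, Matrix.cons_val_fin_one] at this
        subst this
        simp at h1
      · have := h2 0 (by decide)
        simp only [Matrix.cons_val_zero] at this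
        subst this
        simp at h1
    intro x hx y hy
    rw [mem_insert, mem_singleton] at hx hy
    rcases hx with rfl | rfl <;> rcases hy with rfl | rfl <;> exact key _ _
  · intro x hx
    have h01 : x 0 ≠ x 1 := by
      intro h
      apply hx
      rw [mem_insert, mem_singleton]
      rcases fin2_cases (x 0) with h0 | h0
      · left
        funext j
        fin_cases j
        · exact h0
        · exact h.symm.trans h0
      · right
        funext j
        fin_cases j
        · exact h0
        · exact h.symm.trans h0
    refine ⟨![x 1, x 1], ?_, ?_⟩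
    · rw [mem_insert, mem_singleton]
      rcases fin2_cases (x 1) with h0 | h0
      · left; rw [h0]
      · right; rw [h0]
    · rw [adj_iff_fl]
      refine ⟨0, ?_⟩
      funext j
      fin_cases j
      · show x 1 = fl x 0 0
        rw [fl_self]
        generalize x 0 = a at h01
        generalize x 1 = b at h01
        revert a b
        decide
      · show x 1 = fl x 0 1
        rw [fl_of_ne x 0 1 (by decide)]
  · rw [card_insert_of_notMem, card_singleton]
    rw [mem_singleton]
    intro h
    have := congrFun h 0
    simp at this
  · rintro k ⟨R, -, hR, rfl⟩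
    have := dominating_card R hR
    omega

/-- **The largest minimal percolating sets of `[n]^2`.**
`M(1, 2) = 1`, `M(2, 2) = 2`, and `M(n, 2) = (n - 2)² + 4` for every `n ≥ 3`. -/
theorem result : IsM 1 2 1 ∧ IsM 2 2 2 ∧ ∀ n : ℕ, 3 ≤ n → IsM n 2 ((n - 2) ^ 2 + 4) :=
  ⟨one_two, two_two, fun _ hn => isM_two hn⟩

end Pool.Agent.Results.MP_58c4c2_co.SquareBoards
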